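import Pool.Agent.T2h38.LL.LC

set_option autoImplicit false

noncomputable section

open scoped WithZero
open WithZero

namespace Pool.Agent.T2h38.LL

open Pool.Agent.T2h66.LL

theorem t_CO (hLC : S_LC) (hIF : S_IF) : S_CO := by
  intro π s hs hspan σ y hy hy0 hyg
  unfold HasComp
  rw [eq_top_iff, ← hspan, Submodule.span_le]
  rintro z ⟨x, hx, g, rfl⟩
  by_cases hx0 : x = 0
  · subst hx0
    rw [map_zero]
    exact Submodule.zero_mem _
  have hh := harm_cgen (hs x hx)
  obtain ⟨e, he⟩ := hLC Ki Valued.v pI hIF.1 hIF.2.1 _ _ (cyc (π.ρ.comp atI) x).toRepresentation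
    σ.ρ (cgen _ x) y hh (fun h => hx0 (congrArg Subtype.val h)) (gen_cgen _ _) hy hy0 hyg
  let i : (cyc (π.ρ.comp atI) x).toRepresentation.IntertwiningMap (π.ρ.comp atI) :=
    ⟨(cyc (π.ρ.comp atI) x).toSubmodule.subtype, fun g => rfl⟩
  let f : σ.ρ.IntertwiningMap (π.ρ.comp atI) := i.comp e.symm.toIntertwiningMap
  have h1 : f y = x := by
    have h2 : e.symm y = cgen (π.ρ.comp atI) x := by
      rw [← he]
      exact e.toLinearEquiv.symm_apply_apply (cgen (π.ρ.comp atI) x)
    change i (e.symm y) = x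
    rw [h2]
    rfl
  have h3 : f (σ.ρ g y) = π.ρ (atI g) x := by
    have := f.isIntertwining _ _ g y
    rw [this, h1]
    rfl
  exact Submodule.mem_iSup_of_mem f ⟨σ.ρ g y, h3⟩

end Pool.Agent.T2h38.LL
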