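import Pool.Agent.T2h66.LL.Stm

set_option autoImplicit false

noncomputable section

open scoped Polynomial WithZero
open IsDedekindDomain WithZero

namespace Pool.Agent.T2h38.LL

open Pool.Agent.T2h66.LL

/-- the constant functions -/
def cst : Submodule ℂ (GA → ℂ) := Submodule.span ℂ {fun _ => 1}

lemma mem_cst {f : GA → ℂ} : f ∈ cst ↔ ∃ c : ℂ, f = fun _ => c := by
  rw [cst, Submodule.mem_span_singleton]
  constructor
  · rintro ⟨c, rfl⟩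
    exact ⟨c, by ext; simp⟩
  · rintro ⟨c, rfl⟩
    exact ⟨c, by ext; simp⟩

/-- the constant functions -/
def cstR : Subrepresentation (RR GA) where
  toSubmodule := cst
  apply_mem_toSubmodule := by
    intro g f hf
    obtain ⟨c, rfl⟩ := mem_cst.1 hf
    exact mem_cst.2 ⟨c, rfl⟩

lemma cst_aut (f : GA → ℂ) (hf : f ∈ cstR) : IsAutForm f := by
  obtain ⟨c, rfl⟩ := mem_cst.1 hf
  refine ⟨fun γ g => rfl, ⟨⊤, isOpen_univ, fun _ _ _ => rfl⟩, Or.inl fun U hU => ?_⟩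
  refine ⟨cst, ?_, fun y hy _ => ?_⟩
  · unfold cst
    infer_instance
  · have : Submodule.span ℂ (Set.range fun h => ((RR GA).comp atI) h (fun _ : GA => c)) ≤
        cst := by
      rw [Submodule.span_le]
      rintro _ ⟨h, rfl⟩
      exact mem_cst.2 ⟨c, rfl⟩
    exact this hy

lemma triv_aut : IsAutomorphic (triv GA) := by
  refine ⟨cstR, cst_aut, ⟨(LinearMap.proj (1 : GA)).comp cst.subtype, fun g => ?_⟩, ?_⟩
  · ext f
    obtain ⟨f, hf⟩ := f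
    obtain ⟨c, rfl⟩ := mem_cst.1 hf
    rfl
  · intro c
    exact ⟨⟨fun _ => c, mem_cst.2 ⟨c, rfl⟩⟩, rfl⟩

lemma triv_comp {G H : Type} [Group G] [TopologicalSpace G] [Group H] [TopologicalSpace H]
    (ι : H →* G) : HasComp ι (triv G) (triv H) := by
  unfold HasComp
  rw [eq_top_iff]
  intro x _
  let f : (triv H).ρ.IntertwiningMap ((triv G).ρ.comp ι) :=
    ⟨(LinearMap.id : ℂ →ₗ[ℂ] ℂ), fun g => rfl⟩
  exact Submodule.mem_iSup_of_mem f ⟨x, rfl⟩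

lemma triv_ind {F : Type} [Field F] [TopologicalSpace F] [IsTopologicalRing F]
    (v : Valuation F ℤᵐ⁰) (q : ℕ) (μ₁ μ₂ : Fˣ →* ℂˣ)
    (h1 : ∀ x : Fˣ, ((μ₁ x : ℂˣ) : ℂ) = ((nrm v q x ^ (1 / 2 : ℝ) : ℝ) : ℂ))
    (h2 : ∀ x : Fˣ, ((μ₂ x : ℂˣ) : ℂ) = ((nrm v q x ^ (-(1 / 2) : ℝ) : ℝ) : ℂ)) :
    ∃ j : (triv (GL (Fin 2) F)).ρ.IntertwiningMap (Ind v q μ₂ μ₁).toRepresentation,
      Function.Injective j := by
  have key : ∀ a d : Fˣ, ((μ₂ a : ℂˣ) : ℂ) * ((μ₁ d : ℂˣ) : ℂ) *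
      ((nrm v q (a / d) ^ (1 / 2 : ℝ) : ℝ) : ℂ) = 1 := by
    intro a d
    rw [← h1 (a / d)]
    have e1 : ((μ₁ d : ℂˣ) : ℂ) * ((μ₁ (a / d) : ℂˣ) : ℂ) = ((μ₁ a : ℂˣ) : ℂ) := by
      rw [← Units.val_mul, ← map_mul]
      congr 2
      exact mul_div_cancel d a
    rw [mul_assoc, e1]
    have hn : (0 : ℝ) ≤ nrm v q a := by
      unfold nrm
      positivity
    have e2 : ((μ₂ a : ℂˣ) : ℂ) = ((μ₁ a : ℂˣ) : ℂ)⁻¹ := by
      rw [h1, h2, Real.rpow_neg hn, Complex.ofReal_inv]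
    rw [e2]
    exact inv_mul_cancel₀ (Units.ne_zero _)
  have hm : ∀ c : ℂ, (fun _ : GL (Fin 2) F => c) ∈ (Ind v q μ₂ μ₁).toSubmodule := by
    intro c
    refine ⟨⟨⊤, isOpen_univ, fun _ _ _ => rfl⟩, fun a d b g => ?_⟩
    rw [key a d, one_mul]
  let j₀ : ℂ →ₗ[ℂ] (Ind v q μ₂ μ₁).toSubmodule :=
    { toFun := fun c => ⟨fun _ => c, hm c⟩
      map_add' := fun _ _ => rfl
      map_smul' := fun _ _ => rfl }
  refine ⟨⟨j₀, fun g => ?_⟩, fun a b hab => ?_⟩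
  · rfl
  · exact congrFun (congrArg Subtype.val hab) 1

theorem t_TV (hNO : S_NO) (_hIF : S_IF) : S_TV := by
  obtain ⟨χ₁, hχ₁, hv₁, hi₁⟩ := hNO (1 / 2)
  obtain ⟨χ₂, hχ₂, hv₂, hi₂⟩ := hNO (-(1 / 2))
  have hpos : ∀ {F : Type} [Field F] (v : Valuation F ℤᵐ⁰) (q : ℕ) (x : Fˣ) (s : ℝ),
      ‖((nrm v q x ^ s : ℝ) : ℂ)‖ = nrm v q x ^ s := by
    intro F _ v q x s
    rw [Complex.norm_real, Real.norm_eq_abs, abs_of_nonneg]
    apply Real.rpow_nonneg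
    unfold nrm
    positivity
  refine Or.inr ⟨triv_aut, χ₁, χ₂, 1 / 2, -(1 / 2), hχ₁, hχ₂, ⟨fun v x => ?_, fun x => ?_⟩,
    ⟨fun v x => ?_, fun x => ?_⟩, by norm_num, fun v => ?_, ?_⟩
  · rw [hv₁, hpos]
  · rw [hi₁, hpos]
  · rw [hv₂, hpos]
  · rw [hi₂, hpos]
  · exact ⟨triv _, triv_comp _, triv_ind _ _ _ _ (hv₁ v) (hv₂ v)⟩
  · exact ⟨triv _, triv_comp _, triv_ind _ _ _ _ hi₁ hi₂⟩

end Pool.Agent.T2h38.LL
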