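import Pool.Agent.T2h38.LL.ZO

set_option autoImplicit false

noncomputable section

open scoped WithZero
open WithZero

namespace Pool.Agent.T2h38.LL

open Pool.Agent.T2h66.LL

/-- the span of an orbit as a subrepresentation -/
def cyc {G V : Type} [Group G] [AddCommGroup V] [Module ℂ V]
    (ρ : Representation ℂ G V) (x : V) : Subrepresentation ρ where
  toSubmodule := Submodule.span ℂ (Set.range fun g => ρ g x)
  apply_mem_toSubmodule := by
    intro g v hv
    have : Submodule.span ℂ (Set.range fun g => ρ g x) ≤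
        (Submodule.span ℂ (Set.range fun g => ρ g x)).comap (ρ g) := by
      rw [Submodule.span_le]
      rintro _ ⟨h, rfl⟩
      refine Submodule.subset_span ⟨g * h, ?_⟩
      change ρ (g * h) x = ρ g (ρ h x)
      rw [map_mul]; rfl
    exact this hv

lemma self_mem_cyc {G V : Type} [Group G] [AddCommGroup V] [Module ℂ V]
    (ρ : Representation ℂ G V) (x : V) : x ∈ (cyc ρ x).toSubmodule := by
  refine Submodule.subset_span ⟨1, ?_⟩
  change ρ 1 x = x
  rw [map_one]; rfl

/-- the generator of `cyc` -/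
def cgen {G V : Type} [Group G] [AddCommGroup V] [Module ℂ V]
    (ρ : Representation ℂ G V) (x : V) : (cyc ρ x).toSubmodule := ⟨x, self_mem_cyc ρ x⟩

lemma gen_cgen {G V : Type} [Group G] [AddCommGroup V] [Module ℂ V]
    (ρ : Representation ℂ G V) (x : V) : Gen (cyc ρ x).toRepresentation (cgen ρ x) := by
  unfold Gen
  have h1 : Submodule.map (cyc ρ x).toSubmodule.subtype
      (Submodule.span ℂ (Set.range fun g => (cyc ρ x).toRepresentation g (cgen ρ x))) =
      Submodule.map (cyc ρ x).toSubmodule.subtype ⊤ := by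
    rw [Submodule.map_span, Submodule.map_top, Submodule.range_subtype, ← Set.range_comp]
    rfl
  exact Submodule.map_injective_of_injective (cyc ρ x).toSubmodule.subtype_injective h1

lemma harm_cgen {F V : Type} [Field F] [AddCommGroup V] [Module ℂ V] {v : Valuation F ℤᵐ⁰}
    {ϖ : Fˣ} {ρ : Representation ℂ (GL (Fin 2) F) V} {x : V} (h : Harm v ϖ ρ x) :
    Harm v ϖ (cyc ρ x).toRepresentation (cgen ρ x) where
  iw g hg := Subtype.ext (h.iw g hg)
  sc z := Subtype.ext (h.sc z)
  al := Subtype.ext h.al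
  sum := Subtype.ext h.sum

lemma harm_prod {F V W : Type} [Field F] [AddCommGroup V] [Module ℂ V] [AddCommGroup W]
    [Module ℂ W] {v : Valuation F ℤᵐ⁰}
    {ϖ : Fˣ} {ρ : Representation ℂ (GL (Fin 2) F) V} {σ : Representation ℂ (GL (Fin 2) F) W}
    {x : V} {y : W} (hx : Harm v ϖ ρ x) (hy : Harm v ϖ σ y) :
    Harm v ϖ (ρ.prod σ) (x, y) where
  iw g hg := Prod.ext (hx.iw g hg) (hy.iw g hg)
  sc z := Prod.ext (hx.sc z) (hy.sc z)
  al := Prod.ext hx.al hy.al
  sum := Prod.ext hx.sum hy.sum

/-- an intertwining map from an irreducible representation which maps a vector to a generator is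
bijective -/
lemma bij_of_gen {G V W : Type} [Group G] [AddCommGroup V] [Module ℂ V] [AddCommGroup W]
    [Module ℂ W] {ρ : Representation ℂ G V} {σ : Representation ℂ G W}
    (hρ : ρ.IsIrreducible) (f : ρ.IntertwiningMap σ) (z : V) (y : W) (hz : f z = y) (hy0 : y ≠ 0)
    (hy : Gen σ y) : Function.Bijective f := by
  have := hρ
  refine ⟨?_, ?_⟩
  · rcases Representation.IsIrreducible.injective_or_eq_zero f with h | h
    · exact h
    · exfalso
      apply hy0
      rw [← hz, h]; rfl
  · have h1 : LinearMap.range f.toLinearMap = ⊤ := by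
      refine eq_top_of_gen hy (fun g => ?_) ⟨z, hz⟩
      rintro _ ⟨v, rfl⟩
      exact ⟨ρ g v, f.isIntertwining _ _ g v⟩
    exact LinearMap.range_eq_top.1 h1

theorem t_LC (hLB : S_LB) : S_LC := by
  intro F _ v ϖ hϖ hres V W _ _ _ _ ρ σ x y hx hx0 hxg hy hy0 hyg
  have hz := harm_prod hx hy
  have hz0 : (x, y) ≠ (0 : V × W) := fun h => hx0 (congrArg Prod.fst h)
  have hirr := hLB F v ϖ hϖ hres _ (cyc (ρ.prod σ) (x, y)).toRepresentation
    (cgen (ρ.prod σ) (x, y)) (harm_cgen hz) (fun h => hz0 (congrArg Subtype.val h))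
    (gen_cgen _ _)
  let i : (cyc (ρ.prod σ) (x, y)).toRepresentation.IntertwiningMap (ρ.prod σ) :=
    ⟨(cyc (ρ.prod σ) (x, y)).toSubmodule.subtype, fun g => rfl⟩
  let p := (Representation.IntertwiningMap.fst ℂ ρ σ).comp i
  let q := (Representation.IntertwiningMap.snd ℂ ρ σ).comp i
  have hp : Function.Bijective p := bij_of_gen hirr p (cgen _ _) x rfl hx0 hxg
  have hq : Function.Bijective q := bij_of_gen hirr q (cgen _ _) y rfl hy0 hyg
  refine ⟨(p.ofBijective hp).symm.trans (q.ofBijective hq), ?_⟩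
  rw [Representation.Equiv.trans_apply]
  have h1 : (p.ofBijective hp).symm x = cgen (ρ.prod σ) (x, y) := by
    exact (p.ofBijective hp).toLinearEquiv.symm_apply_apply (cgen (ρ.prod σ) (x, y))
  rw [h1]
  rfl

end Pool.Agent.T2h38.LL
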