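import Pool.Agent.T2h66.LL.Stm

set_option autoImplicit false

noncomputable section

namespace Pool.Agent.T2h38.LL

open Pool.Agent.T2h66.LL

/-- a stable subspace which contains a generator is everything -/
lemma eq_top_of_gen {G V : Type} [Group G] [AddCommGroup V] [Module ℂ V]
    {ρ : Representation ℂ G V} {x : V} (hx : Gen ρ x) {W : Submodule ℂ V}
    (hW : ∀ g, W ≤ W.comap (ρ g)) (hxW : x ∈ W) : W = ⊤ := by
  rw [eq_top_iff, ← hx, Submodule.span_le]
  rintro _ ⟨g, rfl⟩
  exact hW g hxW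

theorem t_ZO : S_ZO := by
  intro G V _ _ _ ρ x hx0 hx
  let S : Set (Submodule ℂ V) := {N | (∀ g, N ≤ N.comap (ρ g)) ∧ x ∉ N}
  have hbot : (⊥ : Submodule ℂ V) ∈ S := by
    refine ⟨fun g => bot_le, ?_⟩
    rwa [Submodule.mem_bot]
  obtain ⟨N, _, hN⟩ := zorn_le_nonempty₀ S (by
    intro c hc hch y hy
    refine ⟨sSup c, ⟨fun g => ?_, fun hmem => ?_⟩, fun z hz => le_sSup hz⟩
    · refine sSup_le fun M hM => ((hc hM).1 g).trans ?_
      exact Submodule.comap_mono (le_sSup hM)
    · rw [Submodule.mem_sSup_of_directed ⟨y, hy⟩ hch.directedOn] at hmem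
      obtain ⟨M, hM, hxM⟩ := hmem
      exact (hc hM).2 hxM) ⊥ hbot
  have hNS : N ∈ S := hN.prop
  refine ⟨N, hNS.1, hNS.2, ?_⟩
  have hnt : Nontrivial (Subrepresentation (ρ.quotient N hNS.1)) := by
    refine ⟨⟨⊥, ⊤, fun h => hNS.2 ?_⟩⟩
    have h1 : N.mkQ x ∈ (⊤ : Subrepresentation (ρ.quotient N hNS.1)) :=
      Submodule.mem_top (R := ℂ)
    rw [← h] at h1
    have h2 : N.mkQ x = 0 := (Submodule.mem_bot ℂ).1 h1
    rwa [Submodule.mkQ_apply, Submodule.Quotient.mk_eq_zero] at h2
  refine ⟨fun W => ?_⟩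
  set M : Submodule ℂ V := W.toSubmodule.comap N.mkQ with hM
  have hMst : ∀ g, M ≤ M.comap (ρ g) := by
    intro g v hv
    rw [Submodule.mem_comap, hM, Submodule.mem_comap]
    have := W.apply_mem_toSubmodule g hv
    simpa [Representation.quotient] using this
  have hNM : N ≤ M := by
    intro v hv
    rw [hM, Submodule.mem_comap, Submodule.mkQ_apply, (Submodule.Quotient.mk_eq_zero N).2 hv]
    exact W.toSubmodule.zero_mem
  by_cases hxM : x ∈ M
  · right
    apply Subrepresentation.toSubmodule_injective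
    have h1 := eq_top_of_gen hx hMst hxM
    change W.toSubmodule = ⊤
    rw [eq_top_iff]
    intro q _
    obtain ⟨v, rfl⟩ := N.mkQ_surjective q
    have : v ∈ M := by rw [h1]; trivial
    exact this
  · left
    apply Subrepresentation.toSubmodule_injective
    have h1 : M = N := (hN.eq_of_ge (show M ∈ S from ⟨hMst, hxM⟩) hNM)
    change W.toSubmodule = ⊥
    rw [eq_bot_iff]
    intro q hq
    obtain ⟨v, rfl⟩ := N.mkQ_surjective q
    have h2 : v ∈ M := hq
    rw [h1] at h2
    rw [Submodule.mkQ_apply, (Submodule.Quotient.mk_eq_zero N).2 h2]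
    exact Submodule.zero_mem _

end Pool.Agent.T2h38.LL
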